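import Mathlib

/-!
# A relative Lindel theorem in ramified mixed characteristic: statements which only need Mathlib
-/

set_option autoImplicit false

open Polynomial IsLocalRing

noncomputable section

namespace Pool.Agent.Y808.LB

/-- SURJ -/
def S_SURJ : Prop := ∀ (E B : Type) [CommRing E] [IsLocalRing E] [IsNoetherianRing E]
  [CommRing B] [Nontrivial B] (φ : E →+* B) (d : ℕ) (a : Fin d → E), Function.Surjective φ →
  maximalIdeal E = Ideal.span (Set.range a) → ringKrullDim B = (d : WithBot ℕ∞) →
    Function.Injective φ ∧ IsDomain E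

/-- PRIM: an unramified local algebra with trivial residue field extension is a localisation of a
simple algebra -/
def S_PRIM : Prop := ∀ (B0 B : Type) [CommRing B0] [IsLocalRing B0] [CommRing B] [IsLocalRing B]
  [Algebra B0 B] [IsLocalHom (algebraMap B0 B)], Algebra.EssFiniteType B0 B →
  (maximalIdeal B0).map (algebraMap B0 B) = maximalIdeal B →
  (∀ z : B, ∃ a : B0, z - algebraMap B0 B a ∈ maximalIdeal B) →
  ∃ (b : B) (F : B0[X]), F.Monic ∧ aeval b F = 0 ∧ IsUnit (aeval b (derivative F)) ∧
    ∀ z : B, ∃ P Q : B0[X], IsUnit (aeval b Q) ∧ aeval b Q * z = aeval b P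

/-- coordinates `c_1,...,c_n` of the local ring `B` over `R`; `g_1,...,g_d` generate, up to
denominators, the prime ideal `{P : P(c) ∈ m_B}` of `R[X_1,...,X_n]` -/
structure Coord {R B : Type} [CommRing R] [CommRing B] [IsLocalRing B] (φ : R →+* B)
    {n d : ℕ} (c : Fin n → B) (g : Fin d → MvPolynomial (Fin n) R) : Prop where
  gen : Ideal.span (Set.range fun i => MvPolynomial.eval₂Hom φ c (g i)) = maximalIdeal B
  ker : ∀ P, MvPolynomial.eval₂Hom φ c P ∈ maximalIdeal B →
    ∃ Q, MvPolynomial.eval₂Hom φ c Q ∉ maximalIdeal B ∧ Q * P ∈ Ideal.span (Set.range g)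
  res : ∀ z : B, ∃ P Q, MvPolynomial.eval₂Hom φ c Q ∉ maximalIdeal B ∧
    MvPolynomial.eval₂Hom φ c Q * z - MvPolynomial.eval₂Hom φ c P ∈ maximalIdeal B

/-- a finitely generated separable extension of fields `L / κ` presented as
`κ(t_1,...,t_e)(θ)`, `g(t,θ) = 0` -/
structure ResData (κ L : Type) [Field κ] [Field L] [Algebra κ L] {e : ℕ} (t : Fin e → L) (θ : L)
    (g : (MvPolynomial (Fin e) κ)[X]) : Prop where
  indep : ∀ P : MvPolynomial (Fin e) κ, MvPolynomial.aeval t P = 0 → P = 0
  root : g.eval₂ (MvPolynomial.aeval t : MvPolynomial (Fin e) κ →ₐ[κ] L).toRingHom θ = 0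
  der : (derivative g).eval₂ (MvPolynomial.aeval t : MvPolynomial (Fin e) κ →ₐ[κ] L).toRingHom θ
    ≠ 0
  min : ∀ P : (MvPolynomial (Fin e) κ)[X],
    P.eval₂ (MvPolynomial.aeval t : MvPolynomial (Fin e) κ →ₐ[κ] L).toRingHom θ = 0 →
    ∃ (Q : MvPolynomial (Fin e) κ) (H : (MvPolynomial (Fin e) κ)[X]), Q ≠ 0 ∧ C Q * P = g * H
  gen : ∀ y : L, ∃ (Q : MvPolynomial (Fin e) κ) (P : (MvPolynomial (Fin e) κ)[X]), Q ≠ 0 ∧
    MvPolynomial.aeval t Q * y =
      P.eval₂ (MvPolynomial.aeval t : MvPolynomial (Fin e) κ →ₐ[κ] L).toRingHom θ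

/-- separably generated extensions of finite transcendence degree -/
def SepGen (κ L : Type) [Field κ] [Field L] [Algebra κ L] : Prop :=
  ∃ s : Finset L, IsTranscendenceBasis κ ((↑) : s → L) ∧
    Algebra.IsSeparable (IntermediateField.adjoin κ (s : Set L)) L

/-- purely transcendental extensions of finite transcendence degree -/
def PureTr (κ L : Type) [Field κ] [Field L] [Algebra κ L] : Prop :=
  ∃ (e : ℕ) (t : Fin e → L), AlgebraicIndependent κ t ∧
    IntermediateField.adjoin κ (Set.range t) = ⊤

/-- RES: primitive elements -/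
def S_RES : Prop := ∀ (κ L : Type) [Field κ] [Field L] [Algebra κ L],
  Algebra.EssFiniteType κ L → SepGen κ L →
    ∃ (e : ℕ) (t : Fin e → L) (θ : L) (g : (MvPolynomial (Fin e) κ)[X]), ResData κ L t θ g

/-- COA: coordinates in the case of positive relative dimension -/
def S_COA : Prop := ∀ (R B : Type) [CommRing R] [IsLocalRing R] [CommRing B] [IsLocalRing B]
  [Algebra R B] [IsLocalHom (algebraMap R B)] (k s : ℕ) (a : Fin k → R) (w : Fin (s + 1) → B),
  maximalIdeal R = Ideal.span (Set.range a) →
  maximalIdeal B = Ideal.span (Set.range (algebraMap R B ∘ a) ∪ Set.range w) →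
  ∀ (e : ℕ) (t : Fin e → ResidueField B) (θ : ResidueField B)
    (g : (MvPolynomial (Fin e) (ResidueField R))[X]),
    ResData (ResidueField R) (ResidueField B) t θ g →
    ∃ (n : ℕ) (c : Fin n → B) (g : Fin (k + (s + 1)) → MvPolynomial (Fin n) R),
      Coord (algebraMap R B) c g

/-- COB: coordinates in the case of a purely transcendental residue field extension -/
def S_COB : Prop := ∀ (R B : Type) [CommRing R] [IsLocalRing R] [CommRing B] [IsLocalRing B]
  [Algebra R B] [IsLocalHom (algebraMap R B)] (k s : ℕ) (a : Fin k → R) (w : Fin s → B),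
  maximalIdeal R = Ideal.span (Set.range a) →
  maximalIdeal B = Ideal.span (Set.range (algebraMap R B ∘ a) ∪ Set.range w) →
  PureTr (ResidueField R) (ResidueField B) →
    ∃ (n : ℕ) (c : Fin n → B) (g : Fin (k + s) → MvPolynomial (Fin n) R),
      Coord (algebraMap R B) c g

/-- FL: flat local homomorphisms with regular closed fibre -/
def S_FL : Prop := ∀ (R B : Type) [CommRing R] [IsRegularLocalRing R] [CommRing B] [IsLocalRing B]
  [IsNoetherianRing B] [Algebra R B] [IsLocalHom (algebraMap R B)], Module.Flat R B →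
  IsRegularLocalRing (B ⧸ (maximalIdeal R).map (algebraMap R B)) →
  ∃ (k s : ℕ) (a : Fin k → R) (w : Fin s → B),
    maximalIdeal R = Ideal.span (Set.range a) ∧ ringKrullDim R = (k : WithBot ℕ∞) ∧
    maximalIdeal B = Ideal.span (Set.range (algebraMap R B ∘ a) ∪ Set.range w) ∧
    ringKrullDim B = ((k + s : ℕ) : WithBot ℕ∞)

/-- SMF: the local rings of a smooth algebra over `R` are flat over the local rings of `R`, with
regular closed fibres -/
def S_SMF : Prop := ∀ (R A : Type) [CommRing R] [IsNoetherianRing R] [CommRing A] [Algebra R A],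
  Algebra.Smooth R A → ∀ (q : Ideal A) [q.IsPrime],
    Module.Flat R (Localization.AtPrime q) ∧
    IsRegularLocalRing (Localization.AtPrime q ⧸
      (q.comap (algebraMap R A)).map (algebraMap R (Localization.AtPrime q)))

end Pool.Agent.Y808.LB
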