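import Pool.Agent.W394.BQN.Asm
import Pool.Agent.Y808.LB.StmM

/-!
# A relative Lindel theorem in ramified mixed characteristic: the classes of local rings

`SepGen`, `PureTr` are defined in `StmM`.
-/

set_option autoImplicit false

open Polynomial IsLocalRing Pool.Agent.W394.BQN

noncomputable section

namespace Pool.Agent.Y808.LB

/-- `R → B` is a local homomorphism, essentially of finite type, of Noetherian local rings, `R` is a
domain with the property `AllFree`, its maximal ideal is generated by `k` elements `a`, the maximal
ideal of `B` by them and `s` further elements, `dim B = k + s`; the residue field extension is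
separably generated and `s > 0`, or it is purely transcendental -/
def RelPoint (B : Type) [CommRing B] [IsLocalRing B] : Prop :=
  ∃ (R : Type) (_ : CommRing R) (_ : IsDomain R) (_ : IsNoetherianRing R) (_ : IsLocalRing R)
    (_ : Algebra R B) (_ : IsLocalHom (algebraMap R B)) (k s : ℕ) (a : Fin k → R)
    (w : Fin s → B), AllFree R ∧ Algebra.EssFiniteType R B ∧
    maximalIdeal R = Ideal.span (Set.range a) ∧
    maximalIdeal B = Ideal.span (Set.range (algebraMap R B ∘ a) ∪ Set.range w) ∧
    ringKrullDim B = ((k + s : ℕ) : WithBot ℕ∞) ∧
    ((0 < s ∧ SepGen (ResidueField R) (ResidueField B)) ∨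
      PureTr (ResidueField R) (ResidueField B))

/-- the local ring `B` is flat and essentially of finite type, with regular closed fibre, over a
regular local ring `R` of dimension at most two with perfect residue field -/
def FlatPoint (B : Type) [CommRing B] [IsLocalRing B] : Prop :=
  ∃ (R : Type) (_ : CommRing R) (_ : IsRegularLocalRing R) (_ : Algebra R B),
    PerfectField (ResidueField R) ∧ ringKrullDim R ≤ 2 ∧ IsLocalHom (algebraMap R B) ∧
    Algebra.EssFiniteType R B ∧ Module.Flat R B ∧
    IsRegularLocalRing (B ⧸ (maximalIdeal R).map (algebraMap R B))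

/-- the local ring `B` is essentially of finite type over a discrete valuation ring `V` of
characteristic zero with perfect residue field and uniformiser `π`, has a regular system of
parameters `x_1,...,x_r,y_1,...,y_s`, and one of the following holds: `r ≤ 2` and `π = F(x)` for a
polynomial `F` over `V` without constant term; `r = 2` and `π = u x_1^a x_2^b`, `a`, `b` coprime;
`π = u x_1 ⋯ x_r` and `r ≤ 2` or `s > 0` or the residue field of `B` is purely transcendental
(`u` a unit) -/
def NCPoint (B : Type) [CommRing B] [IsLocalRing B] : Prop :=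
  ∃ (V : Type) (_ : CommRing V) (_ : IsDomain V) (_ : IsDiscreteValuationRing V) (π : V)
    (_ : Algebra V B) (r s : ℕ) (x : Fin r → B) (y : Fin s → B),
    CharZero V ∧ PerfectField (ResidueField V) ∧ Irreducible π ∧ Algebra.EssFiniteType V B ∧
    maximalIdeal B = Ideal.span (Set.range x ∪ Set.range y) ∧
    ringKrullDim B = ((r + s : ℕ) : WithBot ℕ∞) ∧
    ((r ≤ 2 ∧ ∃ F : MvPolynomial (Fin r) V, MvPolynomial.constantCoeff F = 0 ∧
        MvPolynomial.aeval x F = algebraMap V B π) ∨
      (∃ (i j : Fin r) (a b : ℕ) (u : Bˣ), r = 2 ∧ i ≠ j ∧ a.Coprime b ∧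
        algebraMap V B π = u * x i ^ a * x j ^ b) ∨
      ((∃ u : Bˣ, algebraMap V B π = u * ∏ i, x i) ∧
        (r ≤ 2 ∨ 0 < s ∨ ∃ _ : IsLocalHom (algebraMap V B),
          PureTr (ResidueField V) (ResidueField B))))

end Pool.Agent.Y808.LB
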