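import Mathlib

/-!
# A relative Lindel theorem in ramified mixed characteristic: more statements (only Mathlib)
-/

set_option autoImplicit false

open Polynomial IsLocalRing

noncomputable section

namespace Pool.Agent.Y808.LB

/-- RF: the local ring of `V[X_1,...,X_r]/(F - π)` at the origin, `F(0) = 0`, is regular of
dimension `r` -/
def S_RF : Prop := ∀ (V : Type) [CommRing V] [IsDomain V] [IsPrincipalIdealRing V]
  [IsLocalRing V] (π : V), Prime π → ∀ (B : Type) [CommRing B] [IsLocalRing B] (j : V →+* B)
  (r : ℕ) (F : MvPolynomial (Fin r) V) (x : Fin r → B), MvPolynomial.constantCoeff F = 0 →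
  (∀ i, x i ∈ maximalIdeal B) → MvPolynomial.eval₂ j x F = j π →
  ∃ (R : Type) (_ : CommRing R) (_ : IsRegularLocalRing R)
    (i : V →+* R) (φ : R →+* B) (a : Fin r → R),
    ringKrullDim R = (r : WithBot ℕ∞) ∧ IsLocalHom φ ∧
    maximalIdeal R = Ideal.span (Set.range a) ∧ (∀ l, φ (a l) = x l) ∧
    (∀ v, φ (i v) = j v) ∧ ∀ y : R, ∃ v : V, y - i v ∈ maximalIdeal R

/-- RFD: the local rings of finite type algebras over a discrete valuation ring at maximal ideals
over the closed point have residue fields which are finite over the residue field -/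
def S_RFD : Prop := ∀ (V A : Type) [CommRing V] [IsLocalRing V] [CommRing A] [Algebra V A],
  Algebra.FiniteType V A → ∀ (q : Ideal A) [q.IsMaximal],
    (∀ v ∈ maximalIdeal V, algebraMap V A v ∈ q) →
    ∃ _ : IsLocalHom (algebraMap V (Localization.AtPrime q)),
      Module.Finite (ResidueField V) (ResidueField (Localization.AtPrime q))

end Pool.Agent.Y808.LB
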