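import Pool.Agent.Y808.LB.Stm
import Pool.Agent.Y808.LB.Stm2
import Pool.Agent.Y808.LB.Defs
import Pool.Agent.H40.BP.Asm
import Pool.Agent.H379R3.Reg

/-!
# A relative Lindel theorem in ramified mixed characteristic: assembly
-/

set_option autoImplicit false

open Polynomial IsLocalRing BQ Pool.Agent.H40.BP Pool.Agent.W394.BQN

noncomputable section

namespace Pool.Agent.Y808.LB

/-- the parts -/
structure Parts : Prop where
  glob : S_GLOB
  cc : S_CC
  res : S_RES
  coa : S_COA
  cob : S_COB
  dim2 : S_DIM2
  fl : S_FL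
  semi : S_SEMI
  rf : S_RF

/-- regularity from generators of the maximal ideal -/
theorem regular_of_gens (B : Type) [CommRing B] [IsLocalRing B] [IsNoetherianRing B] (d : ℕ)
    (S : Set B) (hS : S.ncard ≤ d) (hf : S.Finite) (hm : maximalIdeal B = Ideal.span S)
    (hd : ringKrullDim B = (d : WithBot ℕ∞)) : IsRegularLocalRing B := by
  apply IsRegularLocalRing.of_spanFinrank_maximalIdeal_le
  rw [hd, hm]
  have h1 := Submodule.spanFinrank_span_le_ncard_of_finite (R := B) (s := S) hf
  have h2 : (Ideal.span S).spanFinrank ≤ d := le_trans h1 hS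
  exact_mod_cast h2

theorem af_of_dim_le (P : Parts) (B : Type) [CommRing B] [IsLocalRing B] [IsNoetherianRing B]
    (d : ℕ) (S : Set B) (hS : S.ncard ≤ d) (hf : S.Finite) (hm : maximalIdeal B = Ideal.span S)
    (hd : ringKrullDim B = (d : WithBot ℕ∞)) (h2 : d ≤ 2) : AF B := by
  have := regular_of_gens B d S hS hf hm hd
  apply P.dim2 B
  rw [hd]
  exact_mod_cast h2

theorem ncard_le {B : Type} {k s : ℕ} (a : Fin k → B) (w : Fin s → B) :
    (Set.range a ∪ Set.range w).ncard ≤ k + s := by
  have h3 : ∀ {k : ℕ} (a : Fin k → B), (Set.range a).ncard ≤ k := by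
    intro k a
    have h3 := Set.ncard_image_le (f := a) (s := Set.univ) Set.finite_univ
    rwa [Set.image_univ, Set.ncard_univ, Nat.card_eq_fintype_card, Fintype.card_fin] at h3
  exact le_trans (Set.ncard_union_le _ _) (add_le_add (h3 a) (h3 w))

/-- relative points have charts -/
theorem rel_chart (P : Parts) (B : Type) [CommRing B] [IsLocalRing B] (h : RelPoint B) :
    AF B ∨ (IsNoetherianRing B ∧ HasChart B) := by
  obtain ⟨R, _, _, _, _, _, _, k, s, a, w, hA, hE, hR, hB, hd, hc⟩ := h
  have hN : IsNoetherianRing B := Algebra.EssFiniteType.isNoetherianRing R B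
  have hAF : AF R := (allFree_iff R).1 hA
  by_cases h0 : k + s = 0
  · left
    refine af_of_dim_le P B (k + s) _ (ncard_le _ _) ?_ hB hd (by omega)
    exact (Set.finite_range _).union (Set.finite_range _)
  right
  refine ⟨hN, ?_⟩
  rcases hc with ⟨hs, hsep⟩ | hp
  · obtain ⟨s', rfl⟩ : ∃ s', s = s' + 1 := ⟨s - 1, by omega⟩
    have h1 : Algebra.EssFiniteType R (ResidueField B) := .comp _ B _
    have h2 : Algebra.EssFiniteType (ResidueField R) (ResidueField B) := .of_comp R _ _
    obtain ⟨e, t, θ, g, hg⟩ := P.res _ _ h2 hsep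
    obtain ⟨n, c, g', hc⟩ := P.coa R B k s' a w hR hB e t θ g hg
    exact P.cc R B hAF hE n _ c g' (by omega) hc hd
  · obtain ⟨n, c, g', hc⟩ := P.cob R B k s a w hR hB hp
    exact P.cc R B hAF hE n _ c g' (by omega) hc hd

/-- the relative theorem -/
theorem engine (P : Parts) (A : Type) [CommRing A]
    (h : ∀ (q : Ideal A) [q.IsPrime], AllFree (Localization.AtPrime q) ∨
      RelPoint (Localization.AtPrime q)) : BassQuillen A := by
  apply bassQuillen_of_local
  intro p hp m
  refine P.glob A ?_ p m
  intro q _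
  rcases h q with h1 | h1
  · exact Or.inl ((allFree_iff _).1 h1)
  · exact rel_chart P _ h1

theorem sepGen_of_perfect (R B : Type) [CommRing R] [IsLocalRing R] [CommRing B] [IsLocalRing B]
    [Algebra R B] [IsLocalHom (algebraMap R B)] (h : Algebra.EssFiniteType R B)
    [PerfectField (ResidueField R)] : SepGen (ResidueField R) (ResidueField B) := by
  have h1 : Algebra.EssFiniteType R (ResidueField B) := .comp _ B _
  have h2 : Algebra.EssFiniteType (ResidueField R) (ResidueField B) := .of_comp R _ _
  exact exists_isTranscendenceBasis_and_isSeparable_of_perfectField _ _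

/-- flat points are relative points -/
theorem flat_rel (P : Parts) (B : Type) [CommRing B] [IsLocalRing B] (h : FlatPoint B) :
    AllFree B ∨ RelPoint B := by
  obtain ⟨R, _, _, _, hp, hR2, _, hE, hF, hreg⟩ := h
  have hN : IsNoetherianRing B := Algebra.EssFiniteType.isNoetherianRing R B
  obtain ⟨k, s, a, w, h1, h2, h3, h4⟩ := P.fl R B hF hreg
  have hk : k ≤ 2 := by
    rw [h2] at hR2
    exact_mod_cast hR2
  by_cases hs : 0 < s
  · right
    have hd : IsDomain R := Pool.Agent.H379R3.isDomain R
    exact ⟨R, inferInstance, hd, inferInstance, inferInstance, inferInstance, inferInstance, k, s,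
      a, w, (allFree_iff R).2 (P.dim2 R hR2), hE, h1, h3, h4, Or.inl ⟨hs, sepGen_of_perfect R B hE⟩⟩
  · left
    rw [allFree_iff]
    refine af_of_dim_le P B (k + s) _ (ncard_le _ _) ?_ h3 h4 (by omega)
    exact (Set.finite_range _).union (Set.finite_range _)

/-- units of the source go to units, `π` goes into the maximal ideal -/
theorem isLocalHom_of {V R : Type} [CommRing V] [IsDomain V] [IsDiscreteValuationRing V] (π : V)
    (hπ : Irreducible π) [CommRing R] [IsLocalRing R] (i : V →+* R)
    (h : i π ∈ maximalIdeal R) : IsLocalHom i := by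
  constructor
  intro v hv
  by_contra hc
  have h1 : v ∈ maximalIdeal V := (mem_maximalIdeal v).2 hc
  rw [hπ.maximalIdeal_eq, Ideal.mem_span_singleton] at h1
  obtain ⟨c, rfl⟩ := h1
  rw [map_mul] at hv
  exact (mem_maximalIdeal _).1 (Ideal.mul_mem_right (i c) _ h) hv

/-- transfer of the residue field conditions from `V` to `R` -/
theorem residue_transfer {V R B : Type} [CommRing V] [IsLocalRing V] [CommRing R] [IsLocalRing R]
    [CommRing B] [IsLocalRing B] [Algebra V R] [Algebra R B] [Algebra V B] [IsScalarTower V R B]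
    [IsLocalHom (algebraMap V R)] [IsLocalHom (algebraMap R B)] [IsLocalHom (algebraMap V B)]
    (hres : ∀ y : R, ∃ v : V, y - algebraMap V R v ∈ maximalIdeal R) :
    (PerfectField (ResidueField V) → PerfectField (ResidueField R)) ∧
    (PureTr (ResidueField V) (ResidueField B) → PureTr (ResidueField R) (ResidueField B)) := by
  have hs : Function.Surjective (algebraMap (ResidueField V) (ResidueField R)) := by
    intro y
    obtain ⟨y, rfl⟩ := residue_surjective y
    obtain ⟨v, hv⟩ := hres y
    refine ⟨residue V v, ?_⟩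
    have h1 : residue R (y - algebraMap V R v) = 0 := (residue_eq_zero_iff _).2 hv
    rw [map_sub, sub_eq_zero] at h1
    rw [h1]
    rfl
  have halg : Algebra.IsAlgebraic (ResidueField V) (ResidueField R) := by
    constructor
    intro y
    obtain ⟨v, rfl⟩ := hs y
    exact isAlgebraic_algebraMap v
  have htow : IsScalarTower (ResidueField V) (ResidueField R) (ResidueField B) := by
    apply IsScalarTower.of_algebraMap_eq
    intro v
    obtain ⟨v, rfl⟩ := residue_surjective v
    show residue B (algebraMap V B v) = residue B (algebraMap R B (algebraMap V R v))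
    rw [← IsScalarTower.algebraMap_apply]
  refine ⟨fun h => Algebra.IsAlgebraic.perfectField (K := ResidueField V), ?_⟩
  rintro ⟨e, t, ht, ht2⟩
  refine ⟨e, t, ht.extendScalars _, ?_⟩
  rw [eq_top_iff]
  intro y _
  have h1 : y ∈ IntermediateField.adjoin (ResidueField V) (Set.range t) := by
    rw [ht2]; trivial
  have h2 : IntermediateField.adjoin (ResidueField V) (Set.range t) ≤
      (IntermediateField.adjoin (ResidueField R) (Set.range t)).restrictScalars
        (ResidueField V) := by
    rw [IntermediateField.adjoin_le_iff]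
    exact IntermediateField.subset_adjoin _ _
  exact h2 h1

/-- common part: a local ring `R` with trivial residue field extension between `V` and `B` -/
theorem nc_aux (P : Parts) (V : Type) [CommRing V] [IsDomain V] [IsDiscreteValuationRing V]
    (π : V) (hπ : Irreducible π) [PerfectField (ResidueField V)] (B : Type) [CommRing B]
    [IsLocalRing B] [Algebra V B] (hE : Algebra.EssFiniteType V B)
    (r s : ℕ) (x : Fin r → B) (y : Fin s → B) (hx : ∀ i, x i ∈ maximalIdeal B)
    (hB : maximalIdeal B = Ideal.span (Set.range x ∪ Set.range y))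
    (hd : ringKrullDim B = ((r + s : ℕ) : WithBot ℕ∞)) (hπB : algebraMap V B π ∈ maximalIdeal B)
    (R : Type) [CommRing R] [IsDomain R] [IsNoetherianRing R] [IsLocalRing R]
    (i : V →+* R) (φ : R →+* B) (a : Fin r → R) (hAF : AF R) (hφ : IsLocalHom φ)
    (hR : maximalIdeal R = Ideal.span (Set.range a)) (ha : ∀ l, φ (a l) = x l)
    (hi : ∀ v, φ (i v) = algebraMap V B v) (hres : ∀ y : R, ∃ v : V, y - i v ∈ maximalIdeal R)
    (hc : 0 < s ∨ ∃ _ : IsLocalHom (algebraMap V B), PureTr (ResidueField V) (ResidueField B)) :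
    RelPoint B := by
  letI : Algebra V R := i.toAlgebra
  letI : Algebra R B := φ.toAlgebra
  have ht : IsScalarTower V R B := IsScalarTower.of_algebraMap_eq (fun v => (hi v).symm)
  have hl1 : IsLocalHom (algebraMap V B) := isLocalHom_of π hπ _ hπB
  have hiπ : i π ∈ maximalIdeal R := by
    by_contra h
    have h1 : IsUnit (i π) := by
      by_contra h2
      exact h ((mem_maximalIdeal _).2 h2)
    have h2 := h1.map φ
    rw [hi] at h2
    exact (mem_maximalIdeal _).1 hπB h2
  have hl2 : IsLocalHom (algebraMap V R) := isLocalHom_of π hπ i hiπ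
  have hl3 : IsLocalHom (algebraMap R B) := hφ
  have hE2 : Algebra.EssFiniteType R B := .of_comp V R B
  obtain ⟨h1, h2⟩ := residue_transfer (V := V) (R := R) (B := B) hres
  have h3 : PerfectField (ResidueField R) := h1 inferInstance
  have hcomp : (algebraMap R B ∘ a) = x := funext ha
  refine ⟨R, inferInstance, inferInstance, inferInstance, inferInstance, inferInstance,
    inferInstance, r, s, a, y, (allFree_iff R).2 hAF, hE2, hR, ?_, hd, ?_⟩
  · rw [hcomp]
    exact hB
  · rcases hc with hs | ⟨_, hp⟩
    · exact Or.inl ⟨hs, sepGen_of_perfect R B hE2⟩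
    · exact Or.inr (h2 hp)

theorem mem_of_gens {B : Type} [CommRing B] [IsLocalRing B] {r s : ℕ} {x : Fin r → B}
    {y : Fin s → B} (hB : maximalIdeal B = Ideal.span (Set.range x ∪ Set.range y)) :
    ∀ i, x i ∈ maximalIdeal B := by
  intro i
  rw [hB]
  exact Ideal.subset_span (Or.inl ⟨i, rfl⟩)

/-- generators may be changed by units -/
theorem span_units {B : Type} [CommRing B] {r s : ℕ} (x : Fin r → B) (y : Fin s → B)
    (u : Fin r → Bˣ) : Ideal.span (Set.range (fun i => (u i : B) * x i) ∪ Set.range y) =
      Ideal.span (Set.range x ∪ Set.range y) := by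
  apply le_antisymm
  · rw [Ideal.span_le]
    rintro _ (⟨i, rfl⟩ | ⟨i, rfl⟩)
    · exact Ideal.mul_mem_left _ _ (Ideal.subset_span (Or.inl ⟨i, rfl⟩))
    · exact Ideal.subset_span (Or.inr ⟨i, rfl⟩)
  · rw [Ideal.span_le]
    rintro _ (⟨i, rfl⟩ | ⟨i, rfl⟩)
    · have h : x i = ((u i)⁻¹ : Bˣ) * ((u i : B) * x i) := by
        rw [← mul_assoc, Units.inv_mul, one_mul]
      rw [h]
      exact Ideal.mul_mem_left _ _ (Ideal.subset_span (Or.inl ⟨i, rfl⟩))
    · exact Ideal.subset_span (Or.inr ⟨i, rfl⟩)

/-- case A: `π = F(x)`, `r ≤ 2` -/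
theorem nc_A (P : Parts) (V : Type) [CommRing V] [IsDomain V] [IsDiscreteValuationRing V]
    (π : V) (hπ : Irreducible π) [PerfectField (ResidueField V)] (B : Type) [CommRing B]
    [IsLocalRing B] [Algebra V B] (hE : Algebra.EssFiniteType V B)
    (r s : ℕ) (x : Fin r → B) (y : Fin s → B)
    (hB : maximalIdeal B = Ideal.span (Set.range x ∪ Set.range y))
    (hd : ringKrullDim B = ((r + s : ℕ) : WithBot ℕ∞)) (hr : r ≤ 2)
    (F : MvPolynomial (Fin r) V) (hF0 : MvPolynomial.constantCoeff F = 0)
    (hF : MvPolynomial.aeval x F = algebraMap V B π) : AllFree B ∨ RelPoint B := by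
  have hN : IsNoetherianRing B := Algebra.EssFiniteType.isNoetherianRing V B
  have hx := mem_of_gens hB
  by_cases hs : 0 < s
  · right
    have hF' : MvPolynomial.eval₂ (algebraMap V B) x F = algebraMap V B π := hF
    obtain ⟨R, _, _, i, φ, a, h1, h2, h3, h4, h5, h6⟩ :=
      P.rf V π hπ.prime B (algebraMap V B) r F x hF0 hx hF'
    have hdom : IsDomain R := Pool.Agent.H379R3.isDomain R
    have hAF : AF R := P.dim2 R (by rw [h1]; exact_mod_cast hr)
    have hπB : algebraMap V B π ∈ maximalIdeal B := by
      rw [← hF', MvPolynomial.eval₂_eq']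
      apply Ideal.sum_mem
      intro d hd
      by_cases h0 : d = 0
      · exfalso
        rw [h0, MvPolynomial.mem_support_iff] at hd
        exact hd hF0
      · obtain ⟨l, hl⟩ : ∃ l, d l ≠ 0 := by
          by_contra hc
          push Not at hc
          exact h0 (Finsupp.ext hc)
        apply Ideal.mul_mem_left
        rw [← Finset.mul_prod_erase Finset.univ _ (Finset.mem_univ l)]
        apply Ideal.mul_mem_right
        exact Ideal.pow_mem_of_mem _ (hx l) _ (Nat.pos_of_ne_zero hl)
    exact nc_aux P V π hπ B hE r s x y hx hB hd hπB R i φ a hAF h2 h3 h4 h5 h6 (Or.inl hs)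
  · left
    rw [allFree_iff]
    refine af_of_dim_le P B (r + s) _ (ncard_le _ _) ?_ hB hd (by omega)
    exact (Set.finite_range _).union (Set.finite_range _)

/-- case B: `π = u x_i^a x_j^b`, `a`, `b` coprime -/
theorem nc_B (P : Parts) (V : Type) [CommRing V] [IsDomain V] [IsDiscreteValuationRing V]
    (π : V) (hπ : Irreducible π) [PerfectField (ResidueField V)] (B : Type) [CommRing B]
    [IsLocalRing B] [Algebra V B] (hE : Algebra.EssFiniteType V B)
    (r s : ℕ) (x : Fin r → B) (y : Fin s → B)
    (hB : maximalIdeal B = Ideal.span (Set.range x ∪ Set.range y))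
    (hd : ringKrullDim B = ((r + s : ℕ) : WithBot ℕ∞)) (hr : r = 2)
    (i j : Fin r) (a b : ℕ) (u : Bˣ) (hij : i ≠ j) (hab : a.Coprime b)
    (h : algebraMap V B π = u * x i ^ a * x j ^ b) : AllFree B ∨ RelPoint B := by
  classical
  -- Bezout
  have hbez : (a : ℤ) * Nat.gcdA a b + (b : ℤ) * Nat.gcdB a b = 1 := by
    have h1 := Nat.gcd_eq_gcd_ab a b
    rw [hab.gcd_eq_one] at h1
    exact_mod_cast h1.symm
  set c : ℤ := Nat.gcdA a b
  set d : ℤ := Nat.gcdB a b
  let v : Fin r → Bˣ := fun l => if l = i then u ^ c else u ^ d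
  let x' : Fin r → B := fun l => (v l : B) * x l
  have hB' : maximalIdeal B = Ideal.span (Set.range x' ∪ Set.range y) := by
    rw [hB]
    exact (span_units x y v).symm
  refine nc_A P V π hπ B hE r s x' y hB' hd (by omega)
    (MvPolynomial.X i ^ a * MvPolynomial.X j ^ b) ?_ ?_
  · rw [map_mul, map_pow, map_pow, MvPolynomial.constantCoeff_X, MvPolynomial.constantCoeff_X]
    rcases Nat.eq_zero_or_pos a with ha | ha
    · rcases Nat.eq_zero_or_pos b with hb | hb
      · exfalso
        rw [ha, hb] at hab
        exact absurd hab (by decide)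
      · rw [zero_pow hb.ne', mul_zero]
    · rw [zero_pow ha.ne', zero_mul]
  · rw [map_mul, map_pow, map_pow, MvPolynomial.aeval_X, MvPolynomial.aeval_X, h]
    have h1 : x' i = ((u ^ c : Bˣ) : B) * x i := by
      show ((v i : Bˣ) : B) * x i = _
      rw [show v i = u ^ c from if_pos rfl]
    have h2 : x' j = ((u ^ d : Bˣ) : B) * x j := by
      show ((v j : Bˣ) : B) * x j = _
      rw [show v j = u ^ d from if_neg (Ne.symm hij)]
    rw [h1, h2, mul_pow, mul_pow]
    have h3 : (((u ^ c : Bˣ) : B)) ^ a * (((u ^ d : Bˣ) : B)) ^ b = u := by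
      rw [← Units.val_pow_eq_pow_val, ← Units.val_pow_eq_pow_val, ← Units.val_mul,
        ← zpow_natCast, ← zpow_natCast, ← zpow_mul, ← zpow_mul, ← zpow_add, mul_comm c, mul_comm d,
        hbez, zpow_one]
    calc _ = ((((u ^ c : Bˣ) : B)) ^ a * (((u ^ d : Bˣ) : B)) ^ b) * (x i ^ a * x j ^ b) := by
          ring
      _ = _ := by rw [h3]; ring

/-- the case that `π` is a unit -/
theorem nc_unit (P : Parts) (V : Type) [CommRing V] [IsDomain V] [IsDiscreteValuationRing V]
    [CharZero V] (π : V) (hπ : Irreducible π) (B : Type) [CommRing B]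
    [IsLocalRing B] [Algebra V B] (hE : Algebra.EssFiniteType V B)
    (s : ℕ) (y : Fin s → B)
    (hB : maximalIdeal B = Ideal.span (Set.range y))
    (hd : ringKrullDim B = (s : WithBot ℕ∞)) (hu : IsUnit (algebraMap V B π)) :
    AllFree B ∨ RelPoint B := by
  have hN : IsNoetherianRing B := Algebra.EssFiniteType.isNoetherianRing V B
  by_cases hs : 0 < s
  · right
    let K := FractionRing V
    have hunit : ∀ v : nonZeroDivisors V, IsUnit (algebraMap V B v) := by
      intro v
      obtain ⟨n, w, hw⟩ := IsDiscreteValuationRing.eq_unit_mul_pow_irreducible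
        (nonZeroDivisors.coe_ne_zero v) hπ
      rw [hw, map_mul, map_pow]
      exact (w.isUnit.map _).mul (hu.pow n)
    letI : Algebra K B := (IsLocalization.lift (M := nonZeroDivisors V) (S := K) hunit).toAlgebra
    have ht : IsScalarTower V K B := IsScalarTower.of_algebraMap_eq (fun v =>
      (IsLocalization.lift_eq (M := nonZeroDivisors V) (S := K) hunit v).symm)
    have hE2 : Algebra.EssFiniteType K B := .of_comp V K B
    have hl : IsLocalHom (algebraMap K B) := inferInstance
    have hchar : CharZero K := inferInstance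
    have halg : Algebra.IsAlgebraic K (ResidueField K) := by
      constructor
      intro z
      obtain ⟨v, rfl⟩ := residue_surjective z
      exact isAlgebraic_algebraMap v
    have hperf : PerfectField (ResidueField K) := Algebra.IsAlgebraic.perfectField (K := K)
    have hAF : AF K := by
      apply P.dim2 K
      rw [ringKrullDim_eq_zero_of_field]
      exact_mod_cast Nat.zero_le 2
    have hK : maximalIdeal K = Ideal.span (Set.range (Fin.elim0 : Fin 0 → K)) := by
      rw [Set.range_eq_empty, Ideal.span_empty]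
      exact (isField_iff_maximalIdeal_eq.1 (Field.toIsField K))
    refine ⟨K, inferInstance, inferInstance, inferInstance, inferInstance, inferInstance, hl,
      0, s, Fin.elim0, y, (allFree_iff K).2 hAF, hE2, hK, ?_, ?_,
      Or.inl ⟨hs, sepGen_of_perfect K B hE2⟩⟩
    · rw [hB, Set.range_eq_empty (_ ∘ _), Set.empty_union]
    · rw [hd, zero_add]
  · left
    rw [allFree_iff]
    have h0 := ncard_le (Fin.elim0 : Fin 0 → B) y
    rw [Set.range_eq_empty, Set.empty_union, zero_add] at h0
    exact af_of_dim_le P B s _ h0 (Set.finite_range _) hB hd (by omega)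

/-- case C: `π = u x_1 ⋯ x_r` -/
theorem nc_C (P : Parts) (V : Type) [CommRing V] [IsDomain V] [IsDiscreteValuationRing V]
    [CharZero V] (π : V) (hπ : Irreducible π) [PerfectField (ResidueField V)] (B : Type)
    [CommRing B] [IsLocalRing B] [Algebra V B] (hE : Algebra.EssFiniteType V B)
    (r s : ℕ) (x : Fin r → B) (y : Fin s → B)
    (hB : maximalIdeal B = Ideal.span (Set.range x ∪ Set.range y))
    (hd : ringKrullDim B = ((r + s : ℕ) : WithBot ℕ∞)) (u : Bˣ)
    (h : algebraMap V B π = u * ∏ i, x i)
    (hc : r ≤ 2 ∨ 0 < s ∨ ∃ _ : IsLocalHom (algebraMap V B),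
      PureTr (ResidueField V) (ResidueField B)) : AllFree B ∨ RelPoint B := by
  classical
  have hN : IsNoetherianRing B := Algebra.EssFiniteType.isNoetherianRing V B
  have hx := mem_of_gens hB
  rcases r with _ | r
  · have h1 : IsUnit (algebraMap V B π) := by
      rw [h]
      simp
    refine nc_unit P V π hπ B hE s y ?_ ?_ h1
    · rw [hB, Set.range_eq_empty, Set.empty_union]
    · rw [hd, zero_add]
  by_cases hsmall : r + 1 ≤ 2 ∧ s = 0
  · left
    rw [allFree_iff]
    refine af_of_dim_le P B (r + 1 + s) _ (ncard_le _ _) ?_ hB hd (by omega)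
    exact (Set.finite_range _).union (Set.finite_range _)
  right
  let v : Fin (r + 1) → Bˣ := fun l => if l = 0 then u else 1
  let x' : Fin (r + 1) → B := fun l => (v l : B) * x l
  have hB' : maximalIdeal B = Ideal.span (Set.range x' ∪ Set.range y) := by
    rw [hB]
    exact (span_units x y v).symm
  have hprod : ∏ l, x' l = algebraMap V B π := by
    rw [h]
    show ∏ l, (v l : B) * x l = _
    rw [Finset.prod_mul_distrib]
    congr 1
    rw [Fin.prod_univ_succ]
    have h1 : (v 0 : B) = u := by simp [v]
    have h2 : ∀ l : Fin r, (v l.succ : B) = 1 := by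
      intro l
      simp [v, Fin.succ_ne_zero]
    rw [h1]
    simp [h2]
  have hx' := mem_of_gens hB'
  have hπB : algebraMap V B π ∈ maximalIdeal B := by
    rw [← hprod, Fin.prod_univ_succ]
    exact Ideal.mul_mem_right _ _ (hx' 0)
  obtain ⟨R, _, _, _, _, i, φ, a, h1, h2, h3, h4, h5, h6⟩ :=
    P.semi V π hπ.prime B (algebraMap V B) r x' hx' hprod
  refine nc_aux P V π hπ B hE (r + 1) s x' y hx' hB' hd hπB R i φ a h1 h2 h3 h4 h5 h6 ?_
  rcases hc with hc | hc | hc
  · exact Or.inl (by omega)
  · exact Or.inl hc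
  · exact Or.inr hc

theorem nc_rel (P : Parts) (B : Type) [CommRing B] [IsLocalRing B] (h : NCPoint B) :
    AllFree B ∨ RelPoint B := by
  obtain ⟨V, _, _, _, π, _, r, s, x, y, h0, hp, hπ, hE, hB, hd, hc⟩ := h
  rcases hc with ⟨hr, F, hF0, hF⟩ | ⟨i, j, a, b, u, hr, hij, hab, h⟩ | ⟨⟨u, h⟩, hc⟩
  · exact nc_A P V π hπ B hE r s x y hB hd hr F hF0 hF
  · exact nc_B P V π hπ B hE r s x y hB hd hr i j a b u hij hab h
  · exact nc_C P V π hπ B hE r s x y hB hd u h hc

end Pool.Agent.Y808.LB
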