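import Pool.Agent.Y808.LB.StmM

set_option autoImplicit false

open Polynomial IsLocalRing

noncomputable section

namespace Pool.Agent.Y808.LB

theorem t_PRIM : S_PRIM := by
  intro B0 B _ _ _ _ _ _ hE hmap hres
  -- the residue field extension is trivial
  have hs : Function.Surjective (algebraMap (ResidueField B0) (ResidueField B)) := by
    intro y
    obtain ⟨y, rfl⟩ := residue_surjective y
    obtain ⟨v, hv⟩ := hres y
    refine ⟨residue B0 v, ?_⟩
    have h1 : residue B (y - algebraMap B0 B v) = 0 := (residue_eq_zero_iff _).2 hv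
    rw [map_sub, sub_eq_zero] at h1
    rw [h1]
    rfl
  have hsep : Algebra.IsSeparable (ResidueField B0) (ResidueField B) := by
    constructor
    intro y
    obtain ⟨v, rfl⟩ := hs y
    exact isSeparable_algebraMap v
  have hun : Algebra.FormallyUnramified B0 B :=
    Algebra.FormallyUnramified.of_map_maximalIdeal hmap
  let C := Algebra.EssFiniteType.subalgebra B0 B
  let Q : Ideal C := (maximalIdeal B).comap (algebraMap C B)
  have hQ : Q.IsPrime := Ideal.comap_isPrime _ _
  have hcompl : Algebra.EssFiniteType.submonoid B0 B = Q.primeCompl := by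
    ext c
    show IsUnit (algebraMap C B c) ↔ ¬ (algebraMap C B c ∈ maximalIdeal B)
    rw [mem_maximalIdeal, mem_nonunits_iff, not_not]
  have hloc : IsLocalization.AtPrime B Q := by
    have h1 := Algebra.EssFiniteType.isLocalization (R := B0) (S := B)
    rw [hcompl] at h1
    exact h1
  have hU : Algebra.IsUnramifiedAt B0 Q := by
    let e : B ≃ₐ[C] Localization.AtPrime Q := IsLocalization.algEquiv Q.primeCompl _ _
    exact Algebra.FormallyUnramified.of_equiv (e.restrictScalars B0)
  obtain ⟨f, hf, P, φ, hφ⟩ := Algebra.IsUnramifiedAt.exists_hasStandardEtaleSurjectionOn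
    (R := B0) Q
  have hfu : IsUnit (algebraMap C B f) := by
    by_contra h
    exact hf ((mem_maximalIdeal _).2 h)
  let ψ : Localization.Away f →ₐ[C] B :=
    IsLocalization.liftAlgHom (M := Submonoid.powers f) (f := Algebra.ofId C B) (by
      rintro ⟨_, n, rfl⟩
      show IsUnit (algebraMap C B (f ^ n))
      rw [map_pow]
      exact hfu.pow n)
  let χ : P.Ring →ₐ[B0] B := (ψ.restrictScalars B0).comp φ
  have hχ : P.HasMap (χ P.X) := StandardEtalePair.hasMap_X.map χ
  -- elements of `C`
  have hC : ∀ c : C, ∃ (p : B0[X]) (n : ℕ),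
      algebraMap C B c * aeval (χ P.X) P.g ^ n = aeval (χ P.X) p := by
    intro c
    obtain ⟨y, hy⟩ := hφ (algebraMap C (Localization.Away f) c)
    let S : StandardEtalePresentation B0 P.Ring :=
      ⟨P, P.X, StandardEtalePair.hasMap_X, by
        rw [StandardEtalePair.lift_X_left]; exact Function.bijective_id⟩
    obtain ⟨p, n, hp⟩ := S.exists_mul_aeval_x_g_pow_eq_aeval_x y
    refine ⟨p, n, ?_⟩
    have h1 := congrArg χ hp
    have h2 : χ y = algebraMap C B c := by
      show ψ (φ y) = _
      rw [hy]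
      exact ψ.commutes c
    rw [map_mul, map_pow, h2, ← aeval_algHom_apply, ← aeval_algHom_apply] at h1
    exact h1
  refine ⟨χ P.X, P.f, P.monic_f, hχ.1, hχ.isUnit_derivative_f, ?_⟩
  intro z
  obtain ⟨⟨c, s⟩, hcs⟩ := IsLocalization.surj Q.primeCompl z
  obtain ⟨p1, n1, h1⟩ := hC c
  obtain ⟨p2, n2, h2⟩ := hC s
  have hsu : IsUnit (algebraMap C B s) := IsLocalization.map_units B s
  refine ⟨P.g ^ n2 * p1, P.g ^ n1 * p2, ?_, ?_⟩
  · rw [map_mul, map_pow, ← h2]
    exact (hχ.2.pow n1).mul (hsu.mul (hχ.2.pow n2))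
  · have h3 : z * algebraMap C B s = algebraMap C B c := hcs
    rw [map_mul, map_mul, map_pow, map_pow, ← h1, ← h2, ← h3]
    ring

end Pool.Agent.Y808.LB
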