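import Pool.Agent.Y808.LB.Defs
import Pool.Agent.Y808.LB.Stm2

/-!
# A relative Lindel theorem in ramified mixed characteristic: statements on applications
-/

set_option autoImplicit false

open Polynomial IsLocalRing

noncomputable section

namespace Pool.Agent.Y808.LB

/-- SMC: smooth algebras over regular arithmetic surfaces `S / D` with generically reduced fibres -/
def S_SMC : Prop := ∀ (D S A : Type) [CommRing D] [IsDedekindDomain D] [CharZero D] [CommRing S]
  [IsDomain S] [IsRegularRing S] [Algebra D S] [CommRing A] [Algebra S A],
  (∀ (o : Ideal D) [o.IsPrime], PerfectField o.ResidueField) → Algebra.FiniteType D S →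
  Function.Injective (algebraMap D S) → ringKrullDim S ≤ 2 →
  (∀ (p : Ideal S) [p.IsPrime], p.height = 1 → p.comap (algebraMap D S) ≠ ⊥ →
    (p.comap (algebraMap D S)).map (algebraMap D (Localization.AtPrime p)) =
      maximalIdeal (Localization.AtPrime p)) →
  Algebra.Smooth S A → ∀ (q : Ideal A) [q.IsPrime], FlatPoint (Localization.AtPrime q)

/-- the local ring `B` over `V` is regular and `π` is the product of a unit and distinct members of
a regular system of parameters -/
def SncPoint (V : Type) [CommRing V] (π : V) (B : Type) [CommRing B] [IsLocalRing B]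
    [Algebra V B] : Prop :=
  ∃ (r s : ℕ) (x : Fin r → B) (y : Fin s → B) (u : Bˣ),
    maximalIdeal B = Ideal.span (Set.range x ∪ Set.range y) ∧
    ringKrullDim B = ((r + s : ℕ) : WithBot ℕ∞) ∧ algebraMap V B π = u * ∏ i, x i

/-- TRI: algebras of finite type and dimension at most three over a discrete valuation ring with
algebraically closed residue field -/
def S_TRI : Prop := ∀ (V A : Type) [CommRing V] [IsDomain V] [IsDiscreteValuationRing V]
  [CharZero V] [CommRing A] [Algebra V A] (π : V), IsAlgClosed (ResidueField V) →
  Irreducible π → Algebra.FiniteType V A → ringKrullDim A ≤ 3 →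
  (∀ (q : Ideal A) [q.IsPrime], SncPoint V π (Localization.AtPrime q)) →
  ∀ (q : Ideal A) [q.IsPrime], NCPoint (Localization.AtPrime q)

end Pool.Agent.Y808.LB
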