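import Pool.Agent.Y808.LB.StmM
import Pool.Agent.H379R3.Reg

set_option autoImplicit false

open Polynomial IsLocalRing

namespace Pool.Agent.Y808.LB

theorem t_SURJ : S_SURJ := by
  intro E B _ _ _ _ _ φ d a hφ ha hB
  have hle : ringKrullDim B ≤ ringKrullDim E := ringKrullDim_le_of_surjective φ hφ
  have hsp : (maximalIdeal E).spanFinrank ≤ d := by
    rw [ha]
    have h1 := Submodule.spanFinrank_span_le_ncard_of_finite (R := E) (s := Set.range a)
      (Set.finite_range a)
    refine le_trans h1 ?_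
    have h3 := Set.ncard_image_le (f := a) (s := Set.univ) Set.finite_univ
    rwa [Set.image_univ, Set.ncard_univ, Nat.card_eq_fintype_card, Fintype.card_fin] at h3
  have hreg : IsRegularLocalRing E := by
    apply IsRegularLocalRing.of_spanFinrank_maximalIdeal_le
    refine le_trans ?_ (hB ▸ hle)
    exact_mod_cast hsp
  have hdom : IsDomain E := Pool.Agent.H379R3.isDomain E
  refine ⟨?_, hdom⟩
  have hE : ringKrullDim E = (d : WithBot ℕ∞) := by
    apply le_antisymm
    · rw [← hreg.spanFinrank_maximalIdeal]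
      exact_mod_cast hsp
    · rw [← hB]; exact hle
  rw [injective_iff_map_eq_zero]
  intro x hx
  by_contra hx0
  have h1 : ringKrullDim B ≤ ringKrullDim (E ⧸ Ideal.span {x}) := by
    let ψ : E ⧸ Ideal.span {x} →+* B := Ideal.Quotient.lift _ φ (by
      intro y hy
      obtain ⟨c, rfl⟩ := Ideal.mem_span_singleton.1 hy
      rw [map_mul, hx, zero_mul])
    apply ringKrullDim_le_of_surjective ψ
    intro b
    obtain ⟨e, rfl⟩ := hφ b
    exact ⟨Ideal.Quotient.mk _ e, rfl⟩
  have h2 := ringKrullDim_quotient_succ_le_of_nonZeroDivisor (R := E)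
    (mem_nonZeroDivisors_of_ne_zero hx0)
  rw [hE] at h2
  rw [hB] at h1
  have h3 : ((d : WithBot ℕ∞)) + 1 ≤ (d : WithBot ℕ∞) :=
    le_trans (add_le_add_left h1 1) h2
  have h4 : (d + 1 : ℕ) ≤ d := by exact_mod_cast h3
  omega

end Pool.Agent.Y808.LB
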