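import Pool.Agent.Y808.LB.Asm
import Pool.Agent.Y808.LB.Stm3
import Pool.Agent.Y50.LB.Line
import Pool.Agent.Y655.LB.Lin
import Pool.Agent.Y185.LB.CC
import Pool.Agent.Y429.LB.STEP
import Pool.Agent.Y708.LB.GLOB
import Pool.Agent.Y657.LB.Res
import Pool.Agent.Y968.LB.Coa
import Pool.Agent.Y67.LB.COB
import Pool.Agent.Y978.LB.DIM2
import Pool.Agent.Y77.LB.FL
import Pool.Agent.Y448.LB.Semi
import Pool.Agent.Y475.LB.SMF
import Pool.Agent.Y487.LB.RFD
import Pool.Agent.Y888.LB.RF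
import Pool.Agent.Y421.LB.Tri
import Pool.Agent.Y808.LB.Surj
import Pool.Agent.Y808.LB.Prim

/-!
# A relative Lindel theorem in ramified mixed characteristic: all parts together
-/

set_option autoImplicit false

open Polynomial IsLocalRing BQ Pool.Agent.H40.BP Pool.Agent.W394.BQN

noncomputable section

namespace Pool.Agent.Y808.LB

theorem parts : Parts where
  glob := Pool.Agent.Y708.LB.t_GLOB Pool.Agent.Y429.LB.t_STEP
  cc := Pool.Agent.Y185.LB.t_CC (Pool.Agent.Y655.LB.t_LIN t_SURJ t_PRIM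
    (Pool.Agent.Y50.LB.t_LINE t_SURJ))
  res := Pool.Agent.Y657.LB.t_RES
  coa := Pool.Agent.Y968.LB.t_COA
  cob := Pool.Agent.Y67.LB.t_COB
  dim2 := Pool.Agent.Y978.LB.t_DIM2
  fl := Pool.Agent.Y77.LB.t_FL
  semi := Pool.Agent.Y448.LB.t_SEMI
  rf := Pool.Agent.Y888.LB.t_RF

end Pool.Agent.Y808.LB
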