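import Pool.Agent.Y808.LB.Stm4
import Pool.Agent.H40.BP.Stm3

/-!
# A relative Lindel theorem in ramified mixed characteristic: nodal families over two-dimensional
bases
-/

set_option autoImplicit false

open Polynomial IsLocalRing Pool.Agent.H40.BP

noncomputable section

namespace Pool.Agent.Y808.LB

/-- NODE: the local ring of `L[X,Y]/(XY - u)` at the origin, `L` a regular local ring of dimension
two with regular system of parameters `u,t` -/
def S_NODE : Prop := ∀ (L : Type) [CommRing L] [IsRegularLocalRing L], ringKrullDim L = 2 →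
  ∀ (u t : L), maximalIdeal L = Ideal.span {u, t} → ∀ (B : Type) [CommRing B] [IsLocalRing B]
  [Algebra L B] [IsLocalHom (algebraMap L B)] (x y : B), x ∈ maximalIdeal B →
  y ∈ maximalIdeal B → x * y = algebraMap L B u →
  ∃ (R : Type) (_ : CommRing R) (_ : IsDomain R) (_ : IsNoetherianRing R) (_ : IsLocalRing R)
    (i : L →+* R) (φ : R →+* B) (a : Fin 3 → R),
    AF R ∧ IsLocalHom φ ∧ maximalIdeal R = Ideal.span (Set.range a) ∧ φ (a 0) = x ∧
    φ (a 1) = y ∧ φ (a 2) = algebraMap L B t ∧
    (∀ v, φ (i v) = algebraMap L B v) ∧ ∀ z : R, ∃ v : L, z - i v ∈ maximalIdeal R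

/-- the local ring `B` is essentially of finite type over a regular local ring `L` of dimension two
with perfect residue field and regular system of parameters `u,t`, it is regular with regular
system of parameters `x,y,t,w_1,...,w_s`, `u = x y`, and `s > 0` or the residue field extension is
purely transcendental -/
def NodePoint (B : Type) [CommRing B] [IsLocalRing B] : Prop :=
  ∃ (L : Type) (_ : CommRing L) (_ : IsRegularLocalRing L) (_ : Algebra L B)
    (_ : IsLocalHom (algebraMap L B)) (u t : L) (s : ℕ) (x y : B) (w : Fin s → B),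
    PerfectField (ResidueField L) ∧ ringKrullDim L = 2 ∧ maximalIdeal L = Ideal.span {u, t} ∧
    Algebra.EssFiniteType L B ∧
    maximalIdeal B = Ideal.span ({x, y, algebraMap L B t} ∪ Set.range w) ∧
    ringKrullDim B = ((3 + s : ℕ) : WithBot ℕ∞) ∧ algebraMap L B u = x * y ∧
    (0 < s ∨ PureTr (ResidueField L) (ResidueField B))

end Pool.Agent.Y808.LB
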