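import Pool.Agent.Y808.LB.Asm
import Pool.Agent.Y808.LB.Stm5

/-!
# A relative Lindel theorem in ramified mixed characteristic: nodal points
-/

set_option autoImplicit false

open Polynomial IsLocalRing BQ Pool.Agent.H40.BP Pool.Agent.W394.BQN

noncomputable section

namespace Pool.Agent.Y808.LB

theorem node_rel (hN : S_NODE) (B : Type) [CommRing B] [IsLocalRing B]
    (h : NodePoint B) : RelPoint B := by
  obtain ⟨L, _, _, _, hl, u, t, s, x, y, w, hp, hL, hm, hE, hB, hd, hxy, hc⟩ := h
  have hx : x ∈ maximalIdeal B := by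
    rw [hB]
    exact Ideal.subset_span (Or.inl (by simp))
  have hy : y ∈ maximalIdeal B := by
    rw [hB]
    exact Ideal.subset_span (Or.inl (by simp))
  obtain ⟨R, _, _, _, _, i, φ, a, hAF, hφ, hR, h0, h1, h2, hi, hres⟩ :=
    hN L hL u t hm B x y hx hy hxy.symm
  letI : Algebra L R := i.toAlgebra
  letI : Algebra R B := φ.toAlgebra
  have ht : IsScalarTower L R B := IsScalarTower.of_algebraMap_eq (fun v => (hi v).symm)
  have hl3 : IsLocalHom (algebraMap R B) := hφ
  have hl2 : IsLocalHom (algebraMap L R) := by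
    constructor
    intro v hv
    have h3 : IsUnit (φ (i v)) := hv.map φ
    rw [hi] at h3
    exact hl.map_nonunit v h3
  have hE2 : Algebra.EssFiniteType R B := .of_comp L R B
  obtain ⟨g1, g2⟩ := residue_transfer (V := L) (R := R) (B := B) hres
  have h3 : PerfectField (ResidueField R) := g1 hp
  have hcomp : Set.range (algebraMap R B ∘ a) = {x, y, algebraMap L B t} := by
    ext z
    constructor
    · rintro ⟨j, rfl⟩
      fin_cases j
      · exact Or.inl h0
      · exact Or.inr (Or.inl h1)
      · exact Or.inr (Or.inr h2)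
    · rintro (rfl | rfl | rfl)
      · exact ⟨0, h0⟩
      · exact ⟨1, h1⟩
      · exact ⟨2, h2⟩
  refine ⟨R, inferInstance, inferInstance, inferInstance, inferInstance, inferInstance,
    inferInstance, 3, s, a, w, (allFree_iff R).2 hAF, hE2, hR, ?_, hd, ?_⟩
  · rw [hcomp]
    exact hB
  · rcases hc with hs | hpt
    · exact Or.inl ⟨hs, sepGen_of_perfect R B hE2⟩
    · exact Or.inr (g2 hpt)

end Pool.Agent.Y808.LB
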