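import Pool.Agent.Y808.LB.Stm4
import Pool.Agent.TH874.BQZ.Stm

/-!
# A relative Lindel theorem in ramified mixed characteristic: products with sums
-/

set_option autoImplicit false

open Polynomial IsLocalRing Pool.Agent.W394.BQN Pool.Agent.TH874.BQZ

noncomputable section

namespace Pool.Agent.Y808.LB

/-- PS: the local ring of
`V[z_1,...,z_k,x_0,...,x_m,y_0,...,y_n]/(z_1 ⋯ z_k (x_0 ⋯ x_m + y_0 ⋯ y_n) - π)` at the origin -/
def S_PS : Prop := ∀ (V : Type) [CommRing V] [IsDomain V] [IsPrincipalIdealRing V]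
  [IsLocalRing V] (π : V), Prime π → ∀ (B : Type) [CommRing B] [IsLocalRing B] (j : V →+* B)
  (k m n : ℕ) (x : Fin k ⊕ (Fin (m + 1) ⊕ Fin (n + 1)) → B), (∀ i, x i ∈ maximalIdeal B) →
  (∏ i, x (Sum.inl i)) * (∏ i, x (Sum.inr (Sum.inl i)) + ∏ i, x (Sum.inr (Sum.inr i))) = j π →
  ∃ (R : Type) (_ : CommRing R) (_ : IsDomain R) (_ : IsNoetherianRing R) (_ : IsLocalRing R)
    (i : V →+* R) (φ : R →+* B) (a : Fin k ⊕ (Fin (m + 1) ⊕ Fin (n + 1)) → R),
    AllFree R ∧ IsLocalHom φ ∧ maximalIdeal R = Ideal.span (Set.range a) ∧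
    (∀ l, φ (a l) = x l) ∧ (∀ v, φ (i v) = j v) ∧ ∀ y : R, ∃ v : V, y - i v ∈ maximalIdeal R

/-- the local ring `B` is essentially of finite type over a discrete valuation ring `V` of
characteristic zero with perfect residue field and uniformiser `π`, it is regular with regular
system of parameters `z_1,...,z_k,x_0,...,x_m,y_0,...,y_n,w_1,...,w_s`, and
`π = z_1 ⋯ z_k (x_0 ⋯ x_m + y_0 ⋯ y_n)`; moreover `s > 0` or the residue field extension is purely
transcendental -/
def SumPoint (B : Type) [CommRing B] [IsLocalRing B] : Prop :=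
  ∃ (V : Type) (_ : CommRing V) (_ : IsDomain V) (_ : IsDiscreteValuationRing V) (π : V)
    (_ : Algebra V B) (k m n s : ℕ) (x : Fin k ⊕ (Fin (m + 1) ⊕ Fin (n + 1)) → B)
    (w : Fin s → B), CharZero V ∧ PerfectField (ResidueField V) ∧ Irreducible π ∧
    Algebra.EssFiniteType V B ∧ maximalIdeal B = Ideal.span (Set.range x ∪ Set.range w) ∧
    ringKrullDim B = ((k + m + n + 2 + s : ℕ) : WithBot ℕ∞) ∧
    algebraMap V B π = (∏ i, x (Sum.inl i)) *
      (∏ i, x (Sum.inr (Sum.inl i)) + ∏ i, x (Sum.inr (Sum.inr i))) ∧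
    (0 < s ∨ ∃ _ : IsLocalHom (algebraMap V B), PureTr (ResidueField V) (ResidueField B))

end Pool.Agent.Y808.LB
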