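import Pool.Agent.Y808.LB.Asm
import Pool.Agent.Y808.LB.Stm6

/-!
# A relative Lindel theorem in ramified mixed characteristic: products with sums
-/

set_option autoImplicit false

open Polynomial IsLocalRing BQ Pool.Agent.H40.BP Pool.Agent.W394.BQN

noncomputable section

namespace Pool.Agent.Y808.LB

theorem sum_rel (P : Parts) (hPS : S_PS) (B : Type) [CommRing B] [IsLocalRing B]
    (h : SumPoint B) : RelPoint B := by
  obtain ⟨V, _, _, _, π, _, k, m, n, s, x, w, hch, hp, hπ, hE, hB, hd, h, hc⟩ := h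
  have hx : ∀ l, x l ∈ maximalIdeal B := by
    intro l
    rw [hB]
    exact Ideal.subset_span (Or.inl ⟨l, rfl⟩)
  have hπB : algebraMap V B π ∈ maximalIdeal B := by
    rw [h]
    apply Ideal.mul_mem_left
    apply Ideal.add_mem
    · rw [Fin.prod_univ_succ]
      exact Ideal.mul_mem_right _ _ (hx _)
    · rw [Fin.prod_univ_succ]
      exact Ideal.mul_mem_right _ _ (hx _)
  obtain ⟨R, _, _, _, _, i, φ, a, h1, h2, h3, h4, h5, h6⟩ :=
    hPS V π hπ.prime B (algebraMap V B) k m n x hx h.symm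
  let e : Fin (k + (m + 1 + (n + 1))) ≃ Fin k ⊕ (Fin (m + 1) ⊕ Fin (n + 1)) :=
    finSumFinEquiv.symm.trans (Equiv.sumCongr (Equiv.refl _) finSumFinEquiv.symm)
  have hr1 : Set.range (x ∘ e) = Set.range x := e.surjective.range_comp x
  have hr2 : Set.range (a ∘ e) = Set.range a := e.surjective.range_comp a
  refine nc_aux P V π hπ B hE (k + (m + 1 + (n + 1))) s (x ∘ e) w (fun l => hx _) ?_ ?_ hπB R i φ
    (a ∘ e) ((allFree_iff R).1 h1) h2 ?_ (fun l => h4 _) h5 h6 hc
  · rw [hr1]; exact hB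
  · rw [hd]
    congr 1
    omega
  · rw [hr2]; exact h3

end Pool.Agent.Y808.LB
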