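import Pool.Agent.Y808.LB.Stm3

/-!
# A relative Lindel theorem in ramified mixed characteristic: tame multiplicities
-/

set_option autoImplicit false

open Polynomial IsLocalRing

noncomputable section

namespace Pool.Agent.Y808.LB

/-- TV: adjoining a separating transcendence basis to `V` -/
def S_TV : Prop := ∀ (V B : Type) [CommRing V] [IsDomain V] [IsDiscreteValuationRing V] (π : V)
  [CommRing B] [IsLocalRing B] [Algebra V B] [IsLocalHom (algebraMap V B)], Irreducible π →
  SepGen (ResidueField V) (ResidueField B) →
  ∃ (W : Type) (_ : CommRing W) (_ : IsDomain W) (_ : IsDiscreteValuationRing W)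
    (_ : Algebra V W) (_ : Algebra W B) (_ : IsScalarTower V W B)
    (_ : IsLocalHom (algebraMap V W)) (_ : IsLocalHom (algebraMap W B)),
    Irreducible (algebraMap V W π) ∧ Algebra.IsSeparable (ResidueField W) (ResidueField B)

/-- TT: a regular local ring of dimension two between `V` and `B`, if `π = u x ^ a` -/
def S_TT : Prop := ∀ (V B : Type) [CommRing V] [IsDomain V] [IsDiscreteValuationRing V] (π : V)
  [CommRing B] [IsLocalRing B] [Algebra V B] [IsLocalHom (algebraMap V B)], Irreducible π →
  Algebra.IsSeparable (ResidueField V) (ResidueField B) →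
  ∀ (s : ℕ) (x : B) (y : Fin (s + 1) → B) (u : Bˣ) (a : ℕ),
    maximalIdeal B = Ideal.span ({x} ∪ Set.range y) → (a : ResidueField V) ≠ 0 →
    algebraMap V B π = u * x ^ a →
    ∃ (R : Type) (_ : CommRing R) (_ : IsRegularLocalRing R) (_ : Algebra V R) (_ : Algebra R B)
      (_ : IsScalarTower V R B) (_ : IsLocalHom (algebraMap R B)) (c : Fin 2 → R),
      ringKrullDim R = 2 ∧ maximalIdeal R = Ideal.span (Set.range c) ∧
      maximalIdeal B = Ideal.span (Set.range (algebraMap R B ∘ c) ∪
        Set.range fun i : Fin s => y i.succ) ∧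
      Algebra.IsSeparable (ResidueField R) (ResidueField B)

/-- the local ring `B` is essentially of finite type over a discrete valuation ring `V` of
characteristic zero with perfect residue field and uniformiser `π`, it is regular with regular
system of parameters `x,y_1,...,y_s`, and `π` is a unit times `x ^ a`, `a` prime to the residue
characteristic -/
def TamePoint (B : Type) [CommRing B] [IsLocalRing B] : Prop :=
  ∃ (V : Type) (_ : CommRing V) (_ : IsDomain V) (_ : IsDiscreteValuationRing V) (π : V)
    (_ : Algebra V B) (s : ℕ) (x : B) (y : Fin s → B) (u : Bˣ) (a : ℕ),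
    CharZero V ∧ PerfectField (ResidueField V) ∧ Irreducible π ∧ Algebra.EssFiniteType V B ∧
    maximalIdeal B = Ideal.span ({x} ∪ Set.range y) ∧
    ringKrullDim B = ((1 + s : ℕ) : WithBot ℕ∞) ∧ (a : ResidueField V) ≠ 0 ∧
    algebraMap V B π = u * x ^ a

/-- SMT: smooth algebras over regular arithmetic surfaces `S / D` with tame fibres -/
def S_SMT : Prop := ∀ (D S A : Type) [CommRing D] [IsDedekindDomain D] [CharZero D] [CommRing S]
  [IsDomain S] [IsRegularRing S] [Algebra D S] [CommRing A] [Algebra S A],
  (∀ (o : Ideal D) [o.IsPrime], PerfectField o.ResidueField) → Algebra.FiniteType D S →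
  Function.Injective (algebraMap D S) → ringKrullDim S ≤ 2 →
  (∀ (o : Ideal D) [o.IsPrime] (p : Ideal S) [p.IsPrime], o ≠ ⊥ → p.height = 1 →
    p.comap (algebraMap D S) = o → ∃ a : ℕ, (a : o.ResidueField) ≠ 0 ∧
      o.map (algebraMap D (Localization.AtPrime p)) = maximalIdeal (Localization.AtPrime p) ^ a) →
  Algebra.Smooth S A → ∀ (q : Ideal A) [q.IsPrime],
    FlatPoint (Localization.AtPrime q) ∨ TamePoint (Localization.AtPrime q)

end Pool.Agent.Y808.LB
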