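import Pool.Agent.Y808.LB.Asm
import Pool.Agent.Y808.LB.Stm4

/-!
# A relative Lindel theorem in ramified mixed characteristic: tame points
-/

set_option autoImplicit false

open Polynomial IsLocalRing BQ Pool.Agent.H40.BP Pool.Agent.W394.BQN

noncomputable section

namespace Pool.Agent.Y808.LB

theorem sepGen_of_separable (κ L : Type) [Field κ] [Field L] [Algebra κ L]
    [Algebra.IsSeparable κ L] : SepGen κ L := by
  have halg : Algebra.IsAlgebraic κ L := inferInstance
  have h0 : Algebra.IsAlgebraic (Algebra.adjoin κ (∅ : Set L)) L := by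
    constructor
    intro y
    exact (halg.isAlgebraic y).extendScalars
      (FaithfulSMul.algebraMap_injective κ (Algebra.adjoin κ (∅ : Set L)))
  obtain ⟨t, hts, ht⟩ := exists_isTranscendenceBasis_subset (R := κ) (∅ : Set L)
  have ht0 : t = ∅ := Set.subset_empty_iff.1 hts
  subst ht0
  refine ⟨∅, ?_, ?_⟩
  · have h1 : ((∅ : Finset L) : Set L) = ∅ := Finset.coe_empty
    have h2 : IsTranscendenceBasis κ ((↑) : ((∅ : Finset L) : Set L) → L) := by
      rw [h1]; exact ht
    exact h2
  · exact Algebra.isSeparable_tower_top_of_isSeparable κ _ L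

theorem tame_rel (P : Parts) (hTV : S_TV) (hTT : S_TT) (B : Type) [CommRing B] [IsLocalRing B]
    (h : TamePoint B) : AllFree B ∨ RelPoint B := by
  obtain ⟨V, _, _, _, π, _, s, x, y, u, a, hch, hp, hπ, hE, hB, hd, ha, h⟩ := h
  have hN : IsNoetherianRing B := Algebra.EssFiniteType.isNoetherianRing V B
  have hcard : ∀ {s : ℕ} (x : B) (y : Fin s → B), ({x} ∪ Set.range y : Set B).ncard ≤ 1 + s := by
    intro s x y
    have h1 := ncard_le (fun _ : Fin 1 => x) y
    rwa [Set.range_const] at h1
  have hfin : ∀ {s : ℕ} (x : B) (y : Fin s → B), ({x} ∪ Set.range y : Set B).Finite :=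
    fun x y => (Set.finite_singleton x).union (Set.finite_range y)
  by_cases hs : s ≤ 1
  · left
    rw [allFree_iff]
    exact af_of_dim_le P B (1 + s) _ (hcard x y) (hfin x y) hB hd (by omega)
  obtain ⟨s, rfl⟩ : ∃ s', s = s' + 1 := ⟨s - 1, by omega⟩
  right
  have hx : x ∈ maximalIdeal B := by
    rw [hB]
    exact Ideal.subset_span (Or.inl rfl)
  have ha0 : a ≠ 0 := by
    rintro rfl
    exact ha (by simp)
  have hπB : algebraMap V B π ∈ maximalIdeal B := by
    rw [h]
    exact Ideal.mul_mem_left _ _ (Ideal.pow_mem_of_mem _ hx _ (Nat.pos_of_ne_zero ha0))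
  have hl : IsLocalHom (algebraMap V B) := isLocalHom_of π hπ _ hπB
  obtain ⟨W, _, _, _, _, _, _, _, _, hπW, hsep⟩ := hTV V B π hπ (sepGen_of_perfect V B hE)
  have hE2 : Algebra.EssFiniteType W B := .of_comp V W B
  have haW : (a : ResidueField W) ≠ 0 := by
    intro h0
    apply ha
    apply (algebraMap (ResidueField V) (ResidueField W)).injective
    rw [map_natCast, h0, map_zero]
  have hW : algebraMap W B (algebraMap V W π) = u * x ^ a := by
    rw [← IsScalarTower.algebraMap_apply]
    exact h
  obtain ⟨R, _, _, _, _, _, _, c, h1, h2, h3, h4⟩ :=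
    hTT W B (algebraMap V W π) hπW hsep s x y u a hB haW hW
  have hdom : IsDomain R := Pool.Agent.H379R3.isDomain R
  have hE3 : Algebra.EssFiniteType R B := .of_comp W R B
  refine ⟨R, inferInstance, hdom, inferInstance, inferInstance, inferInstance, inferInstance,
    2, s, c, _, (allFree_iff R).2 (P.dim2 R h1.le), hE3, h2, h3, ?_, Or.inl ⟨by omega,
      sepGen_of_separable _ _⟩⟩
  rw [hd]
  congr 1
  omega

end Pool.Agent.Y808.LB
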