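import Pool.Agent.Y808.LB.Final
import Pool.Agent.Y808.LB.Tame
import Pool.Agent.Y808.LB.Nodal
import Pool.Agent.Y808.LB.SumP
import Pool.Agent.Y70.LB.TT
import Pool.Agent.Y232.LB.TV
import Pool.Agent.Y438.LB.Node
import Pool.Agent.Y356.LB.Ps

/-!
# A relative Lindel theorem in ramified mixed characteristic: main theorem
-/

set_option autoImplicit false

open Polynomial IsLocalRing BQ Pool.Agent.H40.BP Pool.Agent.W394.BQN

noncomputable section

namespace Pool.Agent.Y808.LB

/-- one of the local rings `B` of the main theorem -/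
def GoodPoint (B : Type) [CommRing B] [IsLocalRing B] : Prop :=
  AllFree B ∨ RelPoint B ∨ FlatPoint B ∨ NodePoint B ∨ NCPoint B ∨ TamePoint B ∨ SumPoint B

theorem good_rel (B : Type) [CommRing B] [IsLocalRing B]
    (h : GoodPoint B) : AllFree B ∨ RelPoint B := by
  rcases h with h | h | h | h | h | h | h
  · exact Or.inl h
  · exact Or.inr h
  · exact flat_rel parts B h
  · exact Or.inr (node_rel Pool.Agent.Y438.LB.t_NODE B h)
  · exact nc_rel parts B h
  · exact tame_rel parts Pool.Agent.Y232.LB.t_TV Pool.Agent.Y70.LB.t_TT B h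
  · exact Or.inr (sum_rel parts Pool.Agent.Y356.LB.t_PS B h)

theorem main (A : Type) [CommRing A]
    (h : ∀ (q : Ideal A) [q.IsPrime], GoodPoint (Localization.AtPrime q)) : BassQuillen A :=
  engine parts A fun q _ => good_rel _ (h q)

end Pool.Agent.Y808.LB
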