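import Pool.Agent.H40.BP.Stm2
import Pool.Agent.H94R2.BQ.X
import Pool.Agent.Y808.LB.StmM

/-!
# A relative Lindel theorem in ramified mixed characteristic: definitions and statements

`AF R` (all finitely generated projective modules over polynomial rings over `R` are free),
`AnPatch`, `SplitAt`, `Split`, `S_PATCH`, `S_TR` are in `Pool.Agent.H40.BP`.
-/

set_option autoImplicit false

open Polynomial IsLocalRing BQ Pool.Agent.H40.BP Pool.Agent.W394.BQN

noncomputable section

namespace Pool.Agent.Y808.LB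

/-- the local ring `B` has a chart: an analytic isomorphism `B0 → B` along an element of the
maximal ideal, where all projective modules over polynomial rings over `B0` are free -/
def HasChart (B : Type) [CommRing B] [IsLocalRing B] : Prop :=
  ∃ (B0 : Type) (_ : CommRing B0) (ι : B0 →+* B) (h : B0),
    AF B0 ∧ AnPatch ι h ∧ ι h ∈ maximalIdeal B

/-- STEP: descent along a chart -/
def S_STEP : Prop := ∀ (B : Type) [CommRing B] [IsLocalRing B],
  (∀ (q : Ideal B) [q.IsPrime], q ≠ maximalIdeal B → AF (Localization.AtPrime q)) →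
  HasChart B → AF B

/-- GLOB: the induction on the height -/
def S_GLOB : Prop := ∀ (A : Type) [CommRing A],
  (∀ (q : Ideal A) [q.IsPrime], AF (Localization.AtPrime q) ∨
    (IsNoetherianRing (Localization.AtPrime q) ∧ HasChart (Localization.AtPrime q))) →
  ∀ (q : Ideal A) [q.IsPrime], AF (Localization.AtPrime q)

/-- LINE: the explicit case of Lindel's lemma -/
def S_LINE : Prop := ∀ (B0 B : Type) [CommRing B0] [IsLocalRing B0] [IsNoetherianRing B0]
  [CommRing B] [IsDomain B] [IsLocalRing B] [Algebra B0 B] [IsLocalHom (algebraMap B0 B)]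
  (d : ℕ) (a : Fin d → B0), maximalIdeal B0 = Ideal.span (Set.range a) →
  (maximalIdeal B0).map (algebraMap B0 B) = maximalIdeal B →
  ringKrullDim B = (d : WithBot ℕ∞) →
  ∀ (b : B) (F : B0[X]), b ∈ maximalIdeal B → b ≠ 0 → F.Monic → aeval b F = 0 →
    IsUnit (aeval b (derivative F)) →
    (∀ z : B, ∃ P Q : B0[X], IsUnit (aeval b Q) ∧ aeval b Q * z = aeval b P) →
    AnPatch (algebraMap B0 B) (F.coeff 0) ∧ F.coeff 0 ∈ maximalIdeal B0

/-- LIN: Lindel's lemma -/
def S_LIN : Prop := ∀ (B0 B : Type) [CommRing B0] [IsLocalRing B0] [IsNoetherianRing B0]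
  [CommRing B] [IsLocalRing B] [IsNoetherianRing B] [Algebra B0 B]
  [IsLocalHom (algebraMap B0 B)], Algebra.EssFiniteType B0 B →
  ∀ (d : ℕ) (a : Fin d → B0), 0 < d → maximalIdeal B0 = Ideal.span (Set.range a) →
  (maximalIdeal B0).map (algebraMap B0 B) = maximalIdeal B →
  (∀ z : B, ∃ a : B0, z - algebraMap B0 B a ∈ maximalIdeal B) →
  ringKrullDim B = (d : WithBot ℕ∞) →
    ∃ h ∈ maximalIdeal B0, AnPatch (algebraMap B0 B) h

/-- CC: a chart from coordinates -/
def S_CC : Prop := ∀ (R B : Type) [CommRing R] [IsDomain R] [IsNoetherianRing R]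
  [CommRing B] [IsLocalRing B] [Algebra R B], AF R → Algebra.EssFiniteType R B →
  ∀ (n d : ℕ) (c : Fin n → B) (g : Fin d → MvPolynomial (Fin n) R), 0 < d →
    Coord (algebraMap R B) c g → ringKrullDim B = (d : WithBot ℕ∞) → HasChart B

/-- DIM2: regular local rings of dimension at most two -/
def S_DIM2 : Prop := ∀ (R : Type) [CommRing R] [IsRegularLocalRing R], ringKrullDim R ≤ 2 → AF R

/-- SEMI: the local ring of `V[X_0,...,X_r]/(X_0 ⋯ X_r - π)` at the origin -/
def S_SEMI : Prop := ∀ (V : Type) [CommRing V] [IsDomain V] [IsPrincipalIdealRing V]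
  [IsLocalRing V] (π : V), Prime π → ∀ (B : Type) [CommRing B] [IsLocalRing B] (j : V →+* B)
  (r : ℕ) (x : Fin (r + 1) → B), (∀ i, x i ∈ maximalIdeal B) → ∏ i, x i = j π →
  ∃ (R : Type) (_ : CommRing R) (_ : IsDomain R) (_ : IsNoetherianRing R) (_ : IsLocalRing R)
    (i : V →+* R) (φ : R →+* B) (a : Fin (r + 1) → R),
    AF R ∧ IsLocalHom φ ∧ maximalIdeal R = Ideal.span (Set.range a) ∧ (∀ l, φ (a l) = x l) ∧
    (∀ v, φ (i v) = j v) ∧ ∀ y : R, ∃ v : V, y - i v ∈ maximalIdeal R

end Pool.Agent.Y808.LB
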